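import Pool.Agent.Lib.MP_f4742e_al.G.WFull
import Pool.Agent.Lib.MP_f4742e_al.X.Split

set_option autoImplicit false

namespace Pool.Agent.Results.MP_f4742e_al.GeneralFields

open Pool.Agent.MP_f4742e_al

/-- Let `A` be a finite-dimensional simple algebra with involution `σ` over a field `F` of
characteristic zero, `J = H(A, σ)` and `w` the Witt index of `(A, σ)`. Then
`2 w - 1 ≤ rb(J) ≤ max(2, 2 w + 1)`. If `J` has an idempotent other than `0` and `1` then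
`2 ≤ rb(J)`, otherwise `rb(J) = 1`. If `J` contains two orthogonal nonzero idempotents and a
nonzero square zero element orthogonal to both then `3 ≤ rb(J)`; if `w ≤ 1` and `J` does not
contain such elements then `rb(J) ≤ 2`. In particular `rb(J)` is determined if `w ≤ 1`. If
`2 ≤ w` and `p A p = F p` for a nonzero `p` in `J`, that is, if `A` is a matrix algebra over `F`
and `σ` is adjoint to a symmetric bilinear form, then `rb(J) = 2 w - 1`. -/
theorem result {F A : Type*} [Field F] [CharZero F] [Ring A] [Algebra F A]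
    [FiniteDimensional F A] [IsSimpleRing A] (σ : Involution F A) :
    ∃ w r : ℕ, σ.IsWittIndex w ∧ HasRBIndex F σ.H r ∧ 2 * w - 1 ≤ r ∧ r ≤ max 2 (2 * w + 1) ∧
      ((∃ p : A, σ.f p = p ∧ p * p = p ∧ p ≠ 0 ∧ p ≠ 1) → 2 ≤ r) ∧
      ((∀ p : A, σ.f p = p → p * p = p → p = 0 ∨ p = 1) → r = 1) ∧
      ((∃ p q e : A, σ.f p = p ∧ σ.f q = q ∧ σ.f e = e ∧ p ≠ 0 ∧ q ≠ 0 ∧ e ≠ 0 ∧
        p * p = p ∧ q * q = q ∧ e * e = 0 ∧ p * q = 0 ∧ e * p = 0 ∧ e * q = 0) → 3 ≤ r) ∧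
      (w ≤ 1 → (¬ ∃ p q e : A, σ.f p = p ∧ σ.f q = q ∧ σ.f e = e ∧ p ≠ 0 ∧ q ≠ 0 ∧ e ≠ 0 ∧
        p * p = p ∧ q * q = q ∧ e * e = 0 ∧ p * q = 0 ∧ e * p = 0 ∧ e * q = 0) → r ≤ 2) ∧
      (2 ≤ w → (∃ p : A, p ≠ 0 ∧ σ.f p = p ∧ ∀ x : A, ∃ c : F, p * x * p = c • p) →
        r = 2 * w - 1) := by
  obtain ⟨w, hw⟩ := exists_wittIndex σ
  obtain ⟨r, hr, h1, h2, h3, h4, h5, h6⟩ := general_bounds_full hw
  refine ⟨w, r, hw, hr, h1, h2, h3, h4, h5, h6, fun hw2 hs => ?_⟩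
  have h7 := split_exact hw hw2 hs
  exact hr.unique h7

end Pool.Agent.Results.MP_f4742e_al.GeneralFields
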