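import Pool.Agent.Lib.MP_f4742e_al.Y.Main
import Pool.Agent.Lib.MP_f4742e_al.Transfer

set_option autoImplicit false

namespace Pool.Agent.Results.MP_f4742e_al.RbHermitian

open Pool.Agent.MP_f4742e_al Matrix

/-- Let `F` be a field of characteristic zero and `n ≥ 3`, and let `w` be the Witt index of
`x_1 ^ 2 + ... + x_n ^ 2` over `F`: the largest size of a linearly independent totally isotropic
family in `F ^ n`. Then `rb(H_n(F))` is `2 w - 1` if `w ≥ 2`, `3` if `w = 1` and `n ≥ 4`, and `2`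
otherwise; if `-1` is a square in `F` then `w = ⌊n / 2⌋`. Moreover `rb(H_n(Q)) = 2 n - 1` and
`rb(M_n(F)^+) = 2 n - 1`. -/
theorem result (F : Type*) [Field F] [CharZero F] (n : ℕ) (hn : 3 ≤ n) :
    (∃ w : ℕ, IsGreatest {m : ℕ | ∃ v : Fin m → (Fin n → F), LinearIndependent F v ∧
        ∀ i j, v i ⬝ᵥ v j = 0} w ∧
      ((∃ i : F, i * i = -1) → w = n / 2) ∧
      HasRBIndex F (HSym n F) (if 2 ≤ w then 2 * w - 1 else if w = 1 ∧ 4 ≤ n then 3 else 2)) ∧
      HasRBIndex F (HSymp n F) (2 * n - 1) ∧ HasRBIndex F (MPlus n F) (2 * n - 1) := by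
  obtain ⟨w, hw, hrb⟩ := rb_HSym_any (F := F) hn
  exact ⟨⟨w, hw, fun ⟨i, hi⟩ => isoMax_half hi hw, hrb⟩, rb_HSymp n (by omega),
    rb_MPlus n (by omega)⟩

end Pool.Agent.Results.MP_f4742e_al.RbHermitian
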