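import Pool.Agent.Lib.MP_f4742e_al.DMain

set_option autoImplicit false

namespace Pool.Agent.Results.MP_f4742e_al.RbMnD

open Pool.Agent.MP_f4742e_al

/-- For every field `F` of characteristic zero, every finite-dimensional division algebra `D` over
`F` and every `n ≥ 1`, the RB-index of the Jordan algebra `M_n(D)^+` over `F` is `2n - 1`. -/
theorem result (F D : Type*) [Field F] [CharZero F] [DivisionRing D] [CharZero D] [Algebra F D]
    [FiniteDimensional F D] (n : ℕ) (hn : 0 < n) :
    HasRBIndex F (MPlusD n D) (2 * n - 1) :=
  rb_MPlusD n hn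

end Pool.Agent.Results.MP_f4742e_al.RbMnD
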